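import Pool.Agent.Lib.TV19.TS

set_option autoImplicit false
set_option linter.unusedVariables false

namespace Pool.Agent.Lib.TV97

open Pool.Agent.Lib.MP_3ecc11_lc Pool.Agent.Lib.TV19 Pool.Agent.Lib.TV19.Sys

/-- old exposed nodes that are neither winner nor loser are few -/
def Skips (S : Sys) (sk : ℤ → ℕ) : Prop :=
  ∀ t u, S.Key t → S.Key u → ∀ K : Finset ℤ,
    (S.a u = t → S.b u = S.b t →
      (∀ v ∈ K, t < v ∧ v < S.b t ∧ S.P t v = S.a t ∧ S.P u v = t ∧ S.Q u v = S.Q t v) →
      K.card ≤ sk t) ∧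
    (S.b u = t → S.a u = S.a t →
      (∀ v ∈ K, v < t ∧ S.a t < v ∧ S.Q t v = S.b t ∧ S.Q u v = t ∧ S.P u v = S.P t v) →
      K.card ≤ sk t)

variable {S : Sys}

theorem deg (X : Finset Lnk) (hX : ∀ x ∈ X, S.IsLink x ∧ S.w x = x.m) :
    X.card ≤ (Finset.Ioo S.L S.R).card := by
  refine Finset.card_le_card_of_injOn (fun x => x.m) ?_ ?_
  · intro x hx
    obtain ⟨h, e⟩ := hX x (Finset.mem_coe.1 hx)
    have k := h.geoW.1
    rw [e] at k
    exact Finset.mem_coe.2 (Finset.mem_Ioo.2 k)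
  · intro x hx y hy exy
    obtain ⟨h, e⟩ := hX x (Finset.mem_coe.1 hx)
    obtain ⟨k, f⟩ := hX y (Finset.mem_coe.1 hy)
    have exy' : x.m = y.m := exy
    have gx := h.geoW
    have gy := k.geoW
    have bx := h.basic
    have bb := k.basic
    by_cases c : x.t = y.t
    · exact h.ext k c exy'
    · exfalso
      have ax : Anc S.a S.b x.t x.m := by rw [← e]; exact gx.2.2.2.2.2.1
      have ay : Anc S.a S.b y.t x.m := by rw [exy', ← f]; exact gy.2.2.2.2.2.1
      rcases h.1.total k.1 ax ay with o | o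
      · refine h.noaff (v := y.m) o c (by rw [e]; exact ay) ?_ (by omega) (by omega)
          bb.2.2.2.2.2.2.2.1
        rw [e, exy', ← f]; exact gy.2.2.2.2.2.2
      · refine k.noaff (v := x.m) o (fun q => c q.symm) (by rw [f, ← exy']; exact ax) ?_
          (by omega) (by omega) bx.2.2.2.2.2.2.2.1
        rw [f, ← exy', ← e]; exact gx.2.2.2.2.2.2

open Classical in
theorem items : ∃ A : ℤ → Finset ℤ, S.Items A ∧ ∀ t, S.Key t →
    (A t).card ≤ 2 * ((Finset.Ioo S.L S.R).filter (S.Aff t)).card := by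
  refine ⟨fun t => ((Finset.Ioo S.L S.R).filter (S.Aff t)).image (fun c => S.item c (S.Q t c)) ∪
    ((Finset.Ioo S.L S.R).filter (S.Aff t)).image (fun c => S.item (S.P t c) c), ?_, ?_⟩
  · intro t c kt af
    have p := kt.pl
    have hc : c ∈ (Finset.Ioo S.L S.R).filter (S.Aff t) := by
      refine Finset.mem_filter.2 ⟨Finset.mem_Ioo.2 ?_, af⟩
      unfold Aff at af; omega
    exact ⟨fun _ => Finset.mem_union_left _ (Finset.mem_image_of_mem _ hc),
      fun _ => Finset.mem_union_right _ (Finset.mem_image_of_mem _ hc)⟩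
  · intro t kt
    refine le_trans (Finset.card_union_le _ _) ?_
    have h1 := Finset.card_image_le (s := (Finset.Ioo S.L S.R).filter (S.Aff t))
      (f := fun c => S.item c (S.Q t c))
    have h2 := Finset.card_image_le (s := (Finset.Ioo S.L S.R).filter (S.Aff t))
      (f := fun c => S.item (S.P t c) c)
    omega

open Classical in
theorem items_sum : ∃ A : ℤ → Finset ℤ, S.Items A ∧ ∑ t ∈ Finset.Ioo S.L S.R, (A t).card ≤
    2 * ∑ t ∈ Finset.Ioo S.L S.R, ((Finset.Ioo S.L S.R).filter (S.Aff t)).card := by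
  obtain ⟨A, h1, h2⟩ := items (S := S)
  refine ⟨A, h1, ?_⟩
  rw [Finset.mul_sum]
  exact Finset.sum_le_sum (fun t ht => h2 t (Finset.mem_Ioo.1 ht))

open Classical in
/-- the child of `t` above `v` -/
noncomputable def ch (S : Sys) (t v : ℤ) : ℤ :=
  if h : ∃ u, S.Key u ∧ Child S.a S.b t u ∧ Anc S.a S.b u v then h.choose else 0

theorem ch_eq {t u v : ℤ} (kt : S.Key t) (ku : S.Key u) (H : Child S.a S.b t u)
    (G : Anc S.a S.b u v) : ch S t v = u := by
  have h : ∃ u, S.Key u ∧ Child S.a S.b t u ∧ Anc S.a S.b u v := ⟨u, ku, H, G⟩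
  unfold ch
  rw [dif_pos h]
  obtain ⟨a1, a2, a3⟩ := h.choose_spec
  exact child_uniq S.T kt.1 kt.2 a1.1 a1.2 ku.1 ku.2 a2 H a3 G

theorem ch_spec {t v : ℤ} (kt : S.Key t) (af : S.Aff t v) :
    S.Key (ch S t v) ∧ Child S.a S.b t (ch S t v) ∧ Anc S.a S.b (ch S t v) v := by
  have p := kt.pl
  have an : Anc S.a S.b t v := by unfold Aff at af; unfold Anc; omega
  have ne : t ≠ v := by unfold Aff at af; omega
  obtain ⟨u, u1, u2, u3, u4⟩ := exists_child S.T kt.1 kt.2 an ne
  rw [ch_eq kt ⟨u1, u2⟩ u3 u4]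
  exact ⟨⟨u1, u2⟩, u3, u4⟩

def Lose (S : Sys) (t v : ℤ) : Prop :=
  S.Aff t v ∧ ((t < v ∧ t < S.P (ch S t v) v) ∨ (v < t ∧ S.Q (ch S t v) v < t))

def New (S : Sys) (t v : ℤ) : Prop :=
  S.Aff t v ∧ ((t < v ∧ S.P (ch S t v) v = t ∧ S.a t < S.P t v) ∨
    (v < t ∧ S.Q (ch S t v) v = t ∧ S.Q t v < S.b t))

def OldR (S : Sys) (t v : ℤ) : Prop :=
  S.Aff t v ∧ t < v ∧ S.P t v = S.a t ∧ S.P (ch S t v) v = t ∧ S.Q (ch S t v) v = S.Q t v

def OldL (S : Sys) (t v : ℤ) : Prop :=
  S.Aff t v ∧ v < t ∧ S.Q t v = S.b t ∧ S.Q (ch S t v) v = t ∧ S.P (ch S t v) v = S.P t v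

def Win (S : Sys) (t v : ℤ) : Prop :=
  (t < v ∧ Lose S t (S.Q t v) ∧ t < S.Q t v ∧ S.P (ch S t (S.Q t v)) (S.Q t v) = v) ∨
  (v < t ∧ Lose S t (S.P t v) ∧ S.P t v < t ∧ S.Q (ch S t (S.P t v)) (S.P t v) = v)

theorem classify {t v : ℤ} (kt : S.Key t) (af : S.Aff t v) :
    Lose S t v ∨ New S t v ∨ OldR S t v ∨ OldL S t v ∨ Win S t v := by
  obtain ⟨ku, hc, an⟩ := ch_spec kt af
  have p := kt.pl
  have an' : S.a t < v ∧ v < S.b t := by unfold Aff at af; omega
  have pv := kt.lam.pl v an'.1 an'.2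
  rcases hc with ⟨e1, e2⟩ | ⟨e1, e2⟩
  · have tv : t < v := by unfold Anc at an; omega
    have pt : S.P t v ≤ t := by unfold Aff at af; omega
    obtain ⟨W, hW⟩ := S.trR t _ kt.1 kt.2 ku.1 ku.2 e1 e2
    by_cases h1 : v ∈ W
    · obtain ⟨a1, a2, a3, a4, a5, a6, a7, a8, a9⟩ := hW.win v h1
      have l3 := kt.lam.l3 v an'.1 an'.2 a4
      have ce : ch S t (S.Q t v) = ch S t v :=
        ch_eq kt ku (Or.inl ⟨e1, e2⟩) (by unfold Anc; omega)
      right; right; right; right; left
      refine ⟨tv, ⟨?_, Or.inl ⟨by omega, ?_⟩⟩, by omega, ?_⟩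
      · unfold Aff; omega
      · rw [ce]; omega
      · rw [ce]; exact a8
    · by_cases h2 : ∃ y ∈ W, S.Q t y = v
      · obtain ⟨y, hy, e⟩ := h2
        obtain ⟨a1, a2, a3, a4, a5, a6, a7, a8, a9⟩ := hW.win y hy
        rw [e] at a8
        exact Or.inl ⟨af, Or.inl ⟨tv, by omega⟩⟩
      · have := hW.oth v tv an'.2 h1 (fun y hy e => h2 ⟨y, hy, e⟩)
        by_cases o : S.P t v = S.a t
        · exact Or.inr (Or.inr (Or.inl ⟨af, tv, o, by omega, this.2⟩))
        · exact Or.inr (Or.inl ⟨af, Or.inl ⟨tv, by omega, by omega⟩⟩)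
  · have tv : v < t := by unfold Anc at an; omega
    have pt : t ≤ S.Q t v := by unfold Aff at af; omega
    obtain ⟨W, hW⟩ := S.trL t _ kt.1 kt.2 ku.1 ku.2 e1 e2
    by_cases h1 : v ∈ W
    · obtain ⟨a1, a2, a3, a4, a5, a6, a7, a8, a9⟩ := hW.win v h1
      have l4 := kt.lam.l4 v an'.1 an'.2 a4
      have ce : ch S t (S.P t v) = ch S t v :=
        ch_eq kt ku (Or.inr ⟨e1, e2⟩) (by unfold Anc; omega)
      right; right; right; right; right
      refine ⟨tv, ⟨?_, Or.inr ⟨by omega, ?_⟩⟩, by omega, ?_⟩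
      · unfold Aff; omega
      · rw [ce]; omega
      · rw [ce]; exact a8
    · by_cases h2 : ∃ y ∈ W, S.P t y = v
      · obtain ⟨y, hy, e⟩ := h2
        obtain ⟨a1, a2, a3, a4, a5, a6, a7, a8, a9⟩ := hW.win y hy
        rw [e] at a8
        exact Or.inl ⟨af, Or.inr ⟨tv, by omega⟩⟩
      · have := hW.oth v tv an'.1 h1 (fun y hy e => h2 ⟨y, hy, e⟩)
        by_cases o : S.Q t v = S.b t
        · exact Or.inr (Or.inr (Or.inr (Or.inl ⟨af, tv, o, by omega, this.2⟩)))
        · exact Or.inr (Or.inl ⟨af, Or.inr ⟨tv, by omega, by omega⟩⟩)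

/-- number of sides on which `v` is covered at time `s` -/
def phi (S : Sys) (s v : ℤ) : ℕ :=
  (if S.a s < S.P s v then 1 else 0) + (if S.Q s v < S.b s then 1 else 0)

open Classical in
theorem phi_step {r u v : ℤ} (kr : S.Key r) (ku : S.Key u) (H : Child S.a S.b r u)
    (G : Anc S.a S.b u v) :
    phi S u v + (if New S r v then 1 else 0) ≤ phi S r v + (if Lose S r v then 1 else 0) := by
  have ce := ch_eq kr ku H G
  have p := kr.pl
  unfold phi New Lose Aff
  rw [ce]
  unfold Anc at G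
  rcases H with ⟨e1, e2⟩ | ⟨e1, e2⟩
  · have st := stepR (c := v) kr ku e1 e2 (by omega) (by omega)
    have pv := kr.lam.pl v (by omega) (by omega)
    have pq : S.Q r v < S.b r → S.Q r v < S.Q r (S.Q r v) ∧ S.Q r (S.Q r v) ≤ S.b r := fun h => by
      have := kr.lam.pl (S.Q r v) (by omega) h
      omega
    split_ifs <;> omega
  · have st := stepL (c := v) kr ku e1 e2 (by omega) (by omega)
    have pv := kr.lam.pl v (by omega) (by omega)
    have pq : S.a r < S.P r v → S.P r (S.P r v) < S.P r v ∧ S.a r ≤ S.P r (S.P r v) := fun h => by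
      have := kr.lam.pl (S.P r v) h (by omega)
      omega
    split_ifs <;> omega

open Classical in
theorem new_le {v : ℤ} (kv : S.Key v) :
    ((Finset.Ioo S.L S.R).filter (fun t => New S t v)).card ≤
      2 + ((Finset.Ioo S.L S.R).filter (fun t => Lose S t v)).card := by
  have kv' := kv
  unfold Key at kv'
  obtain ⟨k, k1, k2, k3, k4⟩ := exists_top S.T (u := S.L + 1) (v := S.R - 1) (by omega) (by omega)
    (by omega)
  have kk : S.Key k := ⟨by omega, by omega⟩
  have main : ∀ s, Anc S.a S.b k s → Anc S.a S.b s v →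
      ((Finset.Ioo S.L S.R).filter (fun t => (Anc S.a S.b t s ∧ t ≠ s) ∧ New S t v)).card + phi S s v ≤
      2 + ((Finset.Ioo S.L S.R).filter (fun t => (Anc S.a S.b t s ∧ t ≠ s) ∧ Lose S t v)).card := by
    refine anc_ind S.T kk.1 kk.2 _ ?_ ?_
    · intro _
      have e : (Finset.Ioo S.L S.R).filter (fun t => (Anc S.a S.b t k ∧ t ≠ k) ∧ New S t v) = ∅ := by
        refine Finset.filter_eq_empty_iff.2 ?_
        intro t ht ⟨⟨h1, h2⟩, _⟩
        have ht' := Finset.mem_Ioo.1 ht
        have kt : S.Key t := ht'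
        exact h2 (kt.antisymm h1 (by unfold Anc; omega))
      rw [e, Finset.card_empty]
      unfold phi
      split_ifs <;> omega
    · intro r u G u1 u2 hc M hu
      have kr := kk.of_anc G
      have ku : S.Key u := ⟨u1, u2⟩
      have c := kr.child ku hc
      have M' := M (kr.trans c.1 hu)
      have st := phi_step kr ku hc hu
      have split : ∀ E : ℤ → Prop,
          ((Finset.Ioo S.L S.R).filter (fun t => (Anc S.a S.b t u ∧ t ≠ u) ∧ E t)).card =
          ((Finset.Ioo S.L S.R).filter (fun t => (Anc S.a S.b t r ∧ t ≠ r) ∧ E t)).card +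
            (if E r then 1 else 0) := by
        intro E
        have iff1 : ∀ t, S.Key t → t ≠ r →
            ((Anc S.a S.b t u ∧ t ≠ u) ↔ (Anc S.a S.b t r ∧ t ≠ r)) := by
          intro t kt ne
          constructor
          · rintro ⟨h1, h2⟩
            exact ⟨anc_par S.T kt.1 kt.2 kr.1 kr.2 u1 u2 hc h1 h2, ne⟩
          · rintro ⟨h1, -⟩
            refine ⟨kt.trans h1 c.1, ?_⟩
            rintro rfl
            exact c.2.2 h1
        by_cases er : E r
        · rw [if_pos er, ← Finset.card_insert_of_notMem (a := r) (by simp)]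
          congr 1
          ext t
          simp only [Finset.mem_filter, Finset.mem_insert, Finset.mem_Ioo]
          by_cases ne : t = r
          · subst ne
            exact ⟨fun _ => Or.inl rfl, fun _ => ⟨kr, ⟨c.1, c.2.1⟩, er⟩⟩
          · constructor
            · rintro ⟨kt, h1, h2⟩
              exact Or.inr ⟨kt, (iff1 t kt ne).1 h1, h2⟩
            · rintro (h | ⟨kt, h1, h2⟩)
              · exact absurd h ne
              · exact ⟨kt, (iff1 t kt ne).2 h1, h2⟩
        · rw [if_neg er, add_zero]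
          congr 1
          ext t
          simp only [Finset.mem_filter, Finset.mem_Ioo]
          by_cases ne : t = r
          · subst ne
            exact ⟨fun h => absurd h.2.2 er, fun h => absurd h.2.2 er⟩
          · constructor
            · rintro ⟨kt, h1, h2⟩
              exact ⟨kt, (iff1 t kt ne).1 h1, h2⟩
            · rintro ⟨kt, h1, h2⟩
              exact ⟨kt, (iff1 t kt ne).2 h1, h2⟩
      have s1 := split (fun t => New S t v)
      have s2 := split (fun t => Lose S t v)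
      omega
  have h := main v (by unfold Anc; omega) kv.refl
  have e1 : (Finset.Ioo S.L S.R).filter (fun t => New S t v) ⊆
      (Finset.Ioo S.L S.R).filter (fun t => (Anc S.a S.b t v ∧ t ≠ v) ∧ New S t v) := by
    intro t ht
    obtain ⟨h1, h2⟩ := Finset.mem_filter.1 ht
    have kt : S.Key t := Finset.mem_Ioo.1 h1
    have p := kt.pl
    have af := h2.1
    refine Finset.mem_filter.2 ⟨h1, ⟨?_, ?_⟩, h2⟩
    · unfold Aff at af; unfold Anc; omega
    · unfold Aff at af; omega
  have e2 : (Finset.Ioo S.L S.R).filter (fun t => (Anc S.a S.b t v ∧ t ≠ v) ∧ Lose S t v) ⊆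
      (Finset.Ioo S.L S.R).filter (fun t => Lose S t v) := by
    intro t ht
    obtain ⟨h1, h2⟩ := Finset.mem_filter.1 ht
    exact Finset.mem_filter.2 ⟨h1, h2.2⟩
  have := Finset.card_le_card e1
  have := Finset.card_le_card e2
  omega

open Classical in
theorem win_le {t : ℤ} (kt : S.Key t) :
    ((Finset.Ioo S.L S.R).filter (Win S t)).card ≤ ((Finset.Ioo S.L S.R).filter (Lose S t)).card := by
  have p := kt.pl
  refine Finset.card_le_card_of_injOn (fun v => if t < v then S.Q t v else S.P t v) ?_ ?_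
  · intro v hv
    obtain ⟨h1, h2⟩ := Finset.mem_filter.1 (Finset.mem_coe.1 hv)
    refine Finset.mem_coe.2 (Finset.mem_filter.2 ?_)
    rcases h2 with ⟨a1, a2, a3, a4⟩ | ⟨a1, a2, a3, a4⟩
    · simp only [if_pos a1]
      have af := a2.1
      refine ⟨Finset.mem_Ioo.2 ?_, a2⟩
      unfold Aff at af; omega
    · simp only [if_neg (not_lt.2 a1.le)]
      have af := a2.1
      refine ⟨Finset.mem_Ioo.2 ?_, a2⟩
      unfold Aff at af; omega
  · intro v hv w hw e
    obtain ⟨h1, h2⟩ := Finset.mem_filter.1 (Finset.mem_coe.1 hv)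
    obtain ⟨g1, g2⟩ := Finset.mem_filter.1 (Finset.mem_coe.1 hw)
    rcases h2 with ⟨a1, a2, a3, a4⟩ | ⟨a1, a2, a3, a4⟩ <;>
      rcases g2 with ⟨b1, b2, b3, b4⟩ | ⟨b1, b2, b3, b4⟩
    · simp only [if_pos a1, if_pos b1] at e
      rw [← a4, ← b4, e]
    · simp only [if_pos a1, if_neg (not_lt.2 b1.le)] at e
      omega
    · simp only [if_pos b1, if_neg (not_lt.2 a1.le)] at e
      omega
    · simp only [if_neg (not_lt.2 a1.le), if_neg (not_lt.2 b1.le)] at e
      rw [← a4, ← b4, e]

open Classical in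
theorem oldR_le {sk : ℤ → ℕ} (h : Skips S sk) {t : ℤ} (kt : S.Key t) :
    ((Finset.Ioo S.L S.R).filter (OldR S t)).card ≤ sk t := by
  rcases ((Finset.Ioo S.L S.R).filter (OldR S t)).eq_empty_or_nonempty with e | ⟨v0, h0⟩
  · rw [e]; simp
  · obtain ⟨-, a1, a2, -⟩ := Finset.mem_filter.1 h0
    obtain ⟨ku, hc, an⟩ := ch_spec kt a1
    have e : S.a (ch S t v0) = t ∧ S.b (ch S t v0) = S.b t := by
      unfold Child at hc; unfold Anc at an; omega
    refine (h t _ kt ku _).1 e.1 e.2 ?_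
    intro v hv
    obtain ⟨-, b1, b2, b3, b4, b5⟩ := Finset.mem_filter.1 hv
    have vb : v < S.b t := by unfold Aff at b1; omega
    have ce : ch S t v = ch S t v0 := ch_eq kt ku hc (by unfold Anc; omega)
    rw [ce] at b4 b5
    exact ⟨b2, vb, b3, b4, b5⟩

open Classical in
theorem oldL_le {sk : ℤ → ℕ} (h : Skips S sk) {t : ℤ} (kt : S.Key t) :
    ((Finset.Ioo S.L S.R).filter (OldL S t)).card ≤ sk t := by
  rcases ((Finset.Ioo S.L S.R).filter (OldL S t)).eq_empty_or_nonempty with e | ⟨v0, h0⟩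
  · rw [e]; simp
  · obtain ⟨-, a1, a2, -⟩ := Finset.mem_filter.1 h0
    obtain ⟨ku, hc, an⟩ := ch_spec kt a1
    have e : S.b (ch S t v0) = t ∧ S.a (ch S t v0) = S.a t := by
      unfold Child at hc; unfold Anc at an; omega
    refine (h t _ kt ku _).2 e.1 e.2 ?_
    intro v hv
    obtain ⟨-, b1, b2, b3, b4, b5⟩ := Finset.mem_filter.1 hv
    have vb : S.a t < v := by unfold Aff at b1; omega
    have ce : ch S t v = ch S t v0 := ch_eq kt ku hc (by unfold Anc; omega)
    rw [ce] at b4 b5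
    exact ⟨b2, vb, b3, b4, b5⟩

open Classical in
theorem lose_le (X : Finset Lnk) (hX : ∀ x, S.IsLink x → x ∈ X) {t : ℤ} (kt : S.Key t) :
    ((Finset.Ioo S.L S.R).filter (Lose S t)).card ≤ (X.filter (fun x => x.t = t)).card + 2 := by
  have p := kt.pl
  set A := (Finset.Ioo S.L S.R).filter (fun v => Lose S t v ∧
    S.a (ch S t v) < S.P (ch S t v) v ∧ S.Q (ch S t v) v < S.b (ch S t v)) with hA
  set B := (Finset.Ioo S.L S.R).filter (fun v => t < v ∧ v < S.b t ∧ S.P t v ≤ t ∧ S.Q t v = S.b t)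
    with hB
  set C := (Finset.Ioo S.L S.R).filter (fun v => v < t ∧ S.a t < v ∧ t ≤ S.Q t v ∧ S.P t v = S.a t)
    with hC
  have sub : (Finset.Ioo S.L S.R).filter (Lose S t) ⊆ A ∪ (B ∪ C) := by
    intro v hv
    obtain ⟨h1, h2⟩ := Finset.mem_filter.1 hv
    obtain ⟨ku, hc, an⟩ := ch_spec kt h2.1
    simp only [hA, hB, hC, Finset.mem_union, Finset.mem_filter]
    by_cases hid : S.a (ch S t v) < S.P (ch S t v) v ∧ S.Q (ch S t v) v < S.b (ch S t v)
    · exact Or.inl ⟨h1, h2, hid⟩
    · right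
      obtain ⟨af, h3⟩ := h2
      have pu := ku.lam.pl v an.1 an.2
      unfold Anc at an
      rcases hc with ⟨e1, e2⟩ | ⟨e1, e2⟩
      · have st := stepR (c := v) kt ku e1 e2 (by omega) (by omega)
        left
        refine ⟨h1, ?_⟩
        unfold Aff at af
        omega
      · have st := stepL (c := v) kt ku e1 e2 (by omega) (by omega)
        right
        refine ⟨h1, ?_⟩
        unfold Aff at af
        omega
  have cA : A.card ≤ (X.filter (fun x => x.t = t)).card := by
    refine Finset.card_le_card_of_injOn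
      (fun v => (⟨t, S.P (ch S t v) v, v, S.Q (ch S t v) v⟩ : Lnk)) ?_ ?_
    · intro v hv
      obtain ⟨h1, h2, h3, h4⟩ := Finset.mem_filter.1 (Finset.mem_coe.1 hv)
      obtain ⟨ku, hc, an⟩ := ch_spec kt h2.1
      exact Finset.mem_coe.2 (Finset.mem_filter.2
        ⟨hX _ ⟨kt, h2.1, _, ku, hc, an, rfl, rfl, h3, h4⟩, rfl⟩)
    · intro v hv w hw e
      exact congrArg Lnk.m e
  have cB : B.card ≤ 1 := by
    refine Finset.card_le_one.2 ?_
    intro v hv w hw
    obtain ⟨-, a1, a2, a3, a4⟩ := Finset.mem_filter.1 hv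
    obtain ⟨-, b1, b2, b3, b4⟩ := Finset.mem_filter.1 hw
    rcases lt_trichotomy v w with c | c | c
    · have := kt.lam.l1 w v (by omega) b2 (by omega) c
      omega
    · exact c
    · have := kt.lam.l1 v w (by omega) a2 (by omega) c
      omega
  have cC : C.card ≤ 1 := by
    refine Finset.card_le_one.2 ?_
    intro v hv w hw
    obtain ⟨-, a1, a2, a3, a4⟩ := Finset.mem_filter.1 hv
    obtain ⟨-, b1, b2, b3, b4⟩ := Finset.mem_filter.1 hw
    rcases lt_trichotomy v w with c | c | c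
    · have := kt.lam.l2 v w a2 (by omega) c (by omega)
      omega
    · exact c
    · have := kt.lam.l2 w v b2 (by omega) c (by omega)
      omega
  have := Finset.card_le_card sub
  have := Finset.card_union_le A (B ∪ C)
  have := Finset.card_union_le B C
  omega

open Classical in
theorem aff_le {t : ℤ} (kt : S.Key t) :
    ((Finset.Ioo S.L S.R).filter (S.Aff t)).card ≤ ((Finset.Ioo S.L S.R).filter (Lose S t)).card +
      ((Finset.Ioo S.L S.R).filter (New S t)).card + ((Finset.Ioo S.L S.R).filter (OldR S t)).card +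
      ((Finset.Ioo S.L S.R).filter (OldL S t)).card + ((Finset.Ioo S.L S.R).filter (Win S t)).card := by
  have sub : (Finset.Ioo S.L S.R).filter (S.Aff t) ⊆ (((Finset.Ioo S.L S.R).filter (Lose S t) ∪
      (Finset.Ioo S.L S.R).filter (New S t)) ∪ (Finset.Ioo S.L S.R).filter (OldR S t) ∪
      (Finset.Ioo S.L S.R).filter (OldL S t)) ∪ (Finset.Ioo S.L S.R).filter (Win S t) := by
    intro v hv
    obtain ⟨h1, h2⟩ := Finset.mem_filter.1 hv
    simp only [Finset.mem_union, Finset.mem_filter]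
    rcases classify kt h2 with h | h | h | h | h
    · exact Or.inl (Or.inl (Or.inl (Or.inl ⟨h1, h⟩)))
    · exact Or.inl (Or.inl (Or.inl (Or.inr ⟨h1, h⟩)))
    · exact Or.inl (Or.inl (Or.inr ⟨h1, h⟩))
    · exact Or.inl (Or.inr ⟨h1, h⟩)
    · exact Or.inr ⟨h1, h⟩
  refine le_trans (Finset.card_le_card sub) ?_
  refine le_trans (Finset.card_union_le _ _) (Nat.add_le_add_right ?_ _)
  refine le_trans (Finset.card_union_le _ _) (Nat.add_le_add_right ?_ _)
  refine le_trans (Finset.card_union_le _ _) (Nat.add_le_add_right ?_ _)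
  exact Finset.card_union_le _ _

open Classical in
theorem swap_sum (K : Finset ℤ) (E : ℤ → ℤ → Prop) :
    ∑ t ∈ K, (K.filter (E t)).card = ∑ v ∈ K, (K.filter (fun t => E t v)).card := by
  simp only [Finset.card_filter]
  exact Finset.sum_comm

open Classical in
theorem i0 {sk : ℤ → ℕ} (h : Skips S sk) (X : Finset Lnk) (hX : ∀ x, S.IsLink x → x ∈ X) :
    ∑ t ∈ Finset.Ioo S.L S.R, ((Finset.Ioo S.L S.R).filter (S.Aff t)).card ≤
      3 * X.card + 8 * (Finset.Ioo S.L S.R).card + 2 * ∑ t ∈ Finset.Ioo S.L S.R, sk t := by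
  set K := Finset.Ioo S.L S.R with hK
  have key : ∀ t ∈ K, S.Key t := fun t ht => Finset.mem_Ioo.1 ht
  have h1 : ∑ t ∈ K, (K.filter (S.Aff t)).card ≤ ∑ t ∈ K, (2 * (K.filter (Lose S t)).card +
      (K.filter (New S t)).card + 2 * sk t) := by
    refine Finset.sum_le_sum (fun t ht => ?_)
    have a1 := aff_le (key t ht)
    have a2 := win_le (key t ht)
    have a3 := oldR_le h (key t ht)
    have a4 := oldL_le h (key t ht)
    rw [← hK] at a1 a2 a3 a4
    omega
  have h2 : ∑ t ∈ K, (K.filter (New S t)).card ≤ 2 * K.card + ∑ t ∈ K, (K.filter (Lose S t)).card := by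
    rw [swap_sum K (New S), swap_sum K (Lose S)]
    have := Finset.sum_le_sum (s := K) (fun v hv => new_le (key v hv))
    rw [Finset.sum_add_distrib, Finset.sum_const, smul_eq_mul, mul_comm] at this
    exact this
  have h3 : ∑ t ∈ K, (K.filter (Lose S t)).card ≤ X.card + 2 * K.card := by
    have := Finset.sum_le_sum (s := K) (fun t ht => lose_le X hX (key t ht))
    rw [Finset.sum_add_distrib, Finset.sum_const, smul_eq_mul, mul_comm] at this
    have h4 : ∑ t ∈ K, (X.filter (fun x => x.t = t)).card ≤ X.card := by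
      rw [Finset.sum_card_fiberwise_eq_card_filter]
      exact Finset.card_filter_le _ _
    exact le_trans this (Nat.add_le_add_right h4 _)
  simp only [Finset.sum_add_distrib, ← Finset.mul_sum] at h1
  omega

end Pool.Agent.Lib.TV97
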